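import Mathlib

set_option autoImplicit false

open Set Topology Filter

namespace Pool.Agent.Results.MP_a67be6_gt.NotESeparable

/-- closed discrete subsets -/
def ClosedDiscrete {X : Type} [TopologicalSpace X] (A : Set X) : Prop :=
  IsClosed A ∧ DiscreteTopology A

/-- `e`-separable: some dense set is a countable union of closed discrete sets -/
def ESmall (X : Type) [TopologicalSpace X] : Prop :=
  ∃ E : ℕ → Set X, (∀ n, ClosedDiscrete (E n)) ∧ Dense (⋃ n, E n)

/-- `E`-separable -/
def EBig (X : Type) [TopologicalSpace X] : Prop :=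
  ∀ D : ℕ → Set X, (∀ n, Dense (D n)) →
    ∃ E : ℕ → Set X, (∀ n, E n ⊆ D n) ∧ (∀ n, ClosedDiscrete (E n)) ∧ Dense (⋃ n, E n)

lemma dense_of {I Y : Type} [TopologicalSpace Y] (S : Set (I → Y))
    (h : ∀ (F : Finset I) (x : I → Y), ∃ y ∈ S, ∀ i ∈ F, y i = x i) : Dense S := by
  rw [dense_iff_inter_open]
  rintro U hU ⟨x, hx⟩
  obtain ⟨F, v, hv, hFU⟩ := isOpen_pi_iff.1 hU _ hx
  obtain ⟨y, hy, hyx⟩ := h F x
  exact ⟨y, hFU fun i hi => by rw [hyx i hi]; exact (hv i hi).2, hy⟩

/-- For every countable discrete space `Y` with at least two points (for example `D(2)` or `D(ℵ₀)`),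
the power of `Y` indexed by the continuum `2^ℕ` is `e`-separable and not `E`-separable. -/
theorem result (Y : Type) [TopologicalSpace Y] [DiscreteTopology Y] [Countable Y] [Nontrivial Y] :
    ESmall ((ℕ → Bool) → Y) ∧ ¬ EBig ((ℕ → Bool) → Y) := by
  classical
  obtain ⟨a, b, hab⟩ := exists_pair_ne Y
  constructor
  · haveI : Nonempty (Σ n : ℕ, ((Fin n → Bool) → Y)) := ⟨⟨0, fun _ => a⟩⟩
    obtain ⟨e, he⟩ := exists_surjective_nat (Σ n : ℕ, ((Fin n → Bool) → Y))
    refine ⟨fun k => {fun s => (e k).2 (fun i => s i)}, fun k => ⟨isClosed_singleton, ?_⟩, ?_⟩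
    · exact Subsingleton.discreteTopology
    · refine dense_of _ fun F x => ?_
      have h1 : ∀ᶠ n : ℕ in atTop, ∀ s ∈ F, ∀ t ∈ F, (∀ i < n, s i = t i) → s = t := by
        simp only [eventually_all_finset]
        intro s _ t _
        by_cases h : s = t
        · exact Eventually.of_forall fun _ _ => h
        · obtain ⟨i, hi⟩ := Function.ne_iff.1 h
          filter_upwards [eventually_gt_atTop i] with n hn h'
          exact absurd (h' i hn) hi
      obtain ⟨n, hn⟩ := h1.exists
      obtain ⟨k, hk⟩ := he ⟨n, fun σ => if h : ∃ s ∈ F, (fun i : Fin n => s i) = σ then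
        x h.choose else a⟩
      refine ⟨_, mem_iUnion.2 ⟨k, rfl⟩, fun s hs => ?_⟩
      rw [hk]
      have h : ∃ t ∈ F, (fun i : Fin n => t i) = fun i : Fin n => s i := ⟨s, hs, rfl⟩
      simp only [dif_pos h]
      rw [hn _ h.choose_spec.1 s hs fun i hi => congrFun h.choose_spec.2 ⟨i, hi⟩]
  · intro h
    obtain ⟨c, hc⟩ := exists_surjective_nat Y
    let S : Set ((ℕ → Bool) → Y) := {x | {s | x s ≠ a}.Finite}
    have hS : Dense S := dense_of _ fun F x =>
      ⟨fun s => if s ∈ F then x s else a, F.finite_toSet.subset fun s hs => by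
        by_contra h
        exact hs (if_neg h), fun s hs => if_pos hs⟩
    obtain ⟨E, hES, hE, hd⟩ := h (fun _ => S) fun _ => hS
    let K : ℕ → Set ((ℕ → Bool) → Y) := fun m =>
      (Set.pi univ fun _ => c '' Iic m) ∩
        ⋂ (T : Finset (ℕ → Bool)), ⋂ (_ : T.card = m + 1), ⋃ s ∈ T, {x | x s = a}
    have hK : ∀ m, IsCompact (K m) := by
      intro m
      refine (isCompact_univ_pi fun _ => ((finite_Iic m).image c).isCompact).inter_right ?_
      refine isClosed_iInter fun T => isClosed_iInter fun _ => ?_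
      exact T.finite_toSet.isClosed_biUnion fun s _ =>
        isClosed_eq (continuous_apply s) continuous_const
    have hKS : ∀ x ∈ S, ∃ m, x ∈ K m := by
      intro x hx
      have h1 : (range x).Finite := by
        refine ((Set.Finite.image x hx).insert a).subset ?_
        rintro _ ⟨s, rfl⟩
        by_cases h : x s = a
        · exact Or.inl h
        · exact Or.inr ⟨s, h, rfl⟩
      choose g hg using hc
      obtain ⟨m, hm⟩ := (h1.image g).bddAbove
      refine ⟨max m hx.toFinset.card, fun s _ => ⟨g (x s), ?_, hg _⟩, ?_⟩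
      · exact (hm ⟨_, ⟨s, rfl⟩, rfl⟩).trans (le_max_left _ _)
      · simp only [mem_iInter, mem_iUnion, mem_setOf_eq]
        intro T hT
        by_contra hcon
        push Not at hcon
        have h2 : T ⊆ hx.toFinset := fun s hs => hx.mem_toFinset.2 (hcon s hs)
        have := Finset.card_le_card h2
        have := le_max_right m hx.toFinset.card
        omega
    have hEc : ∀ n, (E n).Countable := by
      intro n
      have h1 : E n ⊆ ⋃ m, E n ∩ K m := fun x hx => by
        obtain ⟨m, hm⟩ := hKS x (hES n hx)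
        exact mem_iUnion.2 ⟨m, hx, hm⟩
      refine (countable_iUnion fun m => Finite.countable ?_).mono h1
      haveI := (hE n).2
      refine ((hK m).inter_left (hE n).1).finite ?_
      exact ⟨DiscreteTopology.of_subset (hE n).2 inter_subset_left⟩
    have hC : (⋃ x ∈ ⋃ n, E n, {s | x s ≠ a}).Countable :=
      (countable_iUnion hEc).biUnion fun x hx => by
        obtain ⟨n, hn⟩ := mem_iUnion.1 hx
        exact Set.Finite.countable (hES n hn)
    obtain ⟨s, hs⟩ : ∃ s, s ∉ ⋃ x ∈ ⋃ n, E n, {s | x s ≠ a} := by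
      by_contra hcon
      push Not at hcon
      have h1 : (univ : Set (ℕ → Bool)).Countable := hC.mono fun s _ => hcon s
      haveI : Uncountable (ℕ → Bool) := by
        rw [← Cardinal.aleph0_lt_mk_iff]
        simpa using Cardinal.aleph0_lt_continuum
      exact not_countable_univ h1
    have hop : IsOpen {x : (ℕ → Bool) → Y | x s = b} := by
      have hc : Continuous fun y : (ℕ → Bool) → Y => y s := continuous_apply s
      exact (isOpen_discrete {b}).preimage hc
    obtain ⟨x, hx1, hx2⟩ := hd.inter_open_nonempty _ hop ⟨fun _ => b, rfl⟩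
    refine hs (mem_biUnion hx2 ?_)
    show x s ≠ a
    rw [hx1]
    exact hab.symm

end Pool.Agent.Results.MP_a67be6_gt.NotESeparable
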